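import Pool.Agent.H59.L.T374d34.N483.KM.StmF
import Pool.Agent.H59.L.T374d34.N603.KM.OSUP
import Pool.Agent.H59.L.S8.R754.KG.G

/-!
# Project KM (helper483): bodies with bounded Brunn–Minkowski deficit
-/

set_option autoImplicit false

namespace Pool.Agent.N738.KM

open MeasureTheory Set Filter Topology
open scoped ENNReal InnerProductSpace Pointwise
open Pool.Agent.N483.KM
open Pool.Agent.R754.KG (E)
open Pool.Agent.Y506.PV (CcW ind)
open Pool.Agent.N603.KM (PLset)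

/-- the entropy inequality -/
theorem ent {l : ℝ} (hl : 0 < l) : (1 + l) / 2 ≤ l ^ (l / (1 + l)) := by
  have h1 : 0 < 1 + l := by linarith
  have h := Real.geom_mean_le_arith_mean2_weighted (w₁ := 1 / (1 + l)) (w₂ := l / (1 + l))
    (p₁ := 1 + l) (p₂ := (1 + l) / l) (by positivity) (by positivity) (by positivity)
    (by positivity) (by field_simp)
  have e1 : 1 / (1 + l) * (1 + l) + l / (1 + l) * ((1 + l) / l) = 2 := by
    field_simp
    norm_num
  rw [e1, Real.div_rpow h1.le hl.le, ← mul_div_assoc, ← Real.rpow_add h1] at h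
  have e2 : 1 / (1 + l) + l / (1 + l) = 1 := by field_simp
  rw [e2, Real.rpow_one] at h
  have h2 : 0 < l ^ (l / (1 + l)) := Real.rpow_pos_of_pos hl _
  rw [div_le_iff₀ h2] at h
  linarith

theorem PLr {n : ℕ} (t : ℝ) (ht0 : 0 < t) (ht1 : t < 1) {a b c : Set (E n)} (ha : IsCompact a)
    (hb : IsCompact b) (hc : IsCompact c) (H : ∀ x ∈ a, ∀ y ∈ b, (1 - t) • x + t • y ∈ c) :
    volume.real a ^ (1 - t) * volume.real b ^ t ≤ volume.real c := by
  have h := PLset (volume : Measure (E n)) t ht0 ht1 a b c ha.measurableSet hb.measurableSet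
    hc.measurableSet H
  have h1 := ENNReal.toReal_mono hc.measure_lt_top.ne h
  rw [ENNReal.toReal_mul, ← ENNReal.toReal_rpow, ← ENNReal.toReal_rpow] at h1
  exact h1

/-- the Minkowski combinations -/
def Wt {n : ℕ} (K L : Set (E n)) (t : ℝ) : Set (E n) := (1 - t) • K + t • L

theorem Wt_compact {n : ℕ} {K L : Set (E n)} (hK : IsCompact K) (hL : IsCompact L) (t : ℝ) :
    IsCompact (Wt K L t) := (hK.smul _).add (hL.smul _)

theorem claim {n : ℕ} (hn : 1 ≤ n) {K L : Set (E n)} (hK : IsCompact K) (hKc : Convex ℝ K)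
    (hKi : (interior K).Nonempty) (hL : IsCompact L) (hLc : Convex ℝ L)
    (hLi : (interior L).Nonempty) {s : ℝ} (hs : 0 < s)
    (h : volume ((1 / 2 : ℝ) • (K + L)) ^ 2 ≤ ENNReal.ofReal s ^ 2 * (volume K * volume L)) :
    ∃ l : ℝ, 0 < l ∧ volume (l • L) = volume K ∧
      volume ((1 / 2 : ℝ) • (K + l • L)) ≤ ENNReal.ofReal (s ^ 2) * volume K := by
  have hn0 : (n : ℝ) ≠ 0 := by exact_mod_cast (by omega : n ≠ 0)
  have fr : Module.finrank ℝ (E n) = n := by simp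
  have vK0 : volume K ≠ 0 := (Measure.measure_pos_of_nonempty_interior _ hKi).ne'
  have vL0 : volume L ≠ 0 := (Measure.measure_pos_of_nonempty_interior _ hLi).ne'
  have vKt : volume K ≠ ⊤ := hK.measure_lt_top.ne
  have vLt : volume L ≠ ⊤ := hL.measure_lt_top.ne
  obtain ⟨a, ha⟩ : ∃ a : ℝ, a = volume.real K := ⟨_, rfl⟩
  obtain ⟨b, hb⟩ : ∃ b : ℝ, b = volume.real L := ⟨_, rfl⟩
  have ha0 : 0 < a := by rw [ha]; exact ENNReal.toReal_pos vK0 vKt
  have hb0 : 0 < b := by rw [hb]; exact ENNReal.toReal_pos vL0 vLt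
  have hKa : volume K = ENNReal.ofReal a := by rw [ha]; exact (ENNReal.ofReal_toReal vKt).symm
  have hLb : volume L = ENNReal.ofReal b := by rw [hb]; exact (ENNReal.ofReal_toReal vLt).symm
  obtain ⟨l, hl⟩ : ∃ l : ℝ, l = (a / b) ^ (1 / (n : ℝ)) := ⟨_, rfl⟩
  have hl0 : 0 < l := by rw [hl]; positivity
  have hln : l ^ n = a / b := by
    rw [hl, ← Real.rpow_natCast, ← Real.rpow_mul (by positivity), one_div,
      inv_mul_cancel₀ hn0, Real.rpow_one]
  have hab : a = l ^ n * b := by rw [hln]; field_simp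
  obtain ⟨θ, hθ⟩ : ∃ θ : ℝ, θ = l / (1 + l) := ⟨_, rfl⟩
  have hθ0 : 0 < θ := by rw [hθ]; positivity
  have hθ1 : θ < 1 := by
    rw [hθ, div_lt_one (by linarith)]
    linarith
  have h1θ : 1 - θ = 1 / (1 + l) := by
    rw [hθ]
    field_simp
    ring
  refine ⟨l, hl0, ?_, ?_⟩
  · rw [Measure.addHaar_smul, fr, abs_of_pos (by positivity), hKa, hLb,
      ← ENNReal.ofReal_mul (by positivity), ← hab]
  -- the set is a multiple of `Wt K L θ`
  have hset : (1 / 2 : ℝ) • (K + l • L) = ((1 + l) / 2) • Wt K L θ := by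
    unfold Wt
    rw [smul_add, smul_add, smul_smul, smul_smul, smul_smul, h1θ, hθ]
    congr 2
    · field_simp
    · field_simp
  have hhalf : (1 / 2 : ℝ) • (K + L) = Wt K L (1 / 2) := by
    unfold Wt
    rw [smul_add]
    norm_num
  -- the inequalities
  have cV := fun t => Wt_compact hK hL t
  have i1 : volume.real K ^ (1 - (1 - θ)) * volume.real L ^ (1 - θ) ≤
      volume.real (Wt K L (1 - θ)) := by
    refine PLr (1 - θ) (by linarith) (by linarith) hK hL (cV _) fun x hx y hy => ?_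
    exact Set.add_mem_add (Set.smul_mem_smul_set hx) (Set.smul_mem_smul_set hy)
  have i2 : volume.real (Wt K L θ) ^ (1 - (1 / 2 : ℝ)) * volume.real (Wt K L (1 - θ)) ^ (1 / 2 : ℝ) ≤
      volume.real (Wt K L (1 / 2)) := by
    refine PLr (1 / 2) (by norm_num) (by norm_num) (cV _) (cV _) (cV _) fun x hx y hy => ?_
    obtain ⟨_, ⟨k1, hk1, rfl⟩, _, ⟨l1, hl1, rfl⟩, rfl⟩ := hx
    obtain ⟨_, ⟨k2, hk2, rfl⟩, _, ⟨l2, hl2, rfl⟩, rfl⟩ := hy
    have q1 : (1 - θ) • k1 + θ • k2 ∈ K := hKc hk1 hk2 (by linarith) hθ0.le (by ring)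
    have q2 : θ • l1 + (1 - θ) • l2 ∈ L := hLc hl1 hl2 hθ0.le (by linarith) (by ring)
    have e : (1 - (1 / 2 : ℝ)) • ((fun x => (1 - θ) • x) k1 + (fun x => θ • x) l1) +
        (1 / 2 : ℝ) • ((fun x => (1 - (1 - θ)) • x) k2 + (fun x => (1 - θ) • x) l2) =
        (1 - (1 / 2 : ℝ)) • ((1 - θ) • k1 + θ • k2) + (1 / 2 : ℝ) • (θ • l1 + (1 - θ) • l2) := by
      simp only [smul_add, smul_smul]
      module
    rw [e]
    exact Set.add_mem_add (Set.smul_mem_smul_set q1) (Set.smul_mem_smul_set q2)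
  obtain ⟨V, hV⟩ : ∃ V : ℝ, V = volume.real (Wt K L θ) := ⟨_, rfl⟩
  obtain ⟨V', hV'⟩ : ∃ V' : ℝ, V' = volume.real (Wt K L (1 - θ)) := ⟨_, rfl⟩
  obtain ⟨V2, hV2⟩ : ∃ V2 : ℝ, V2 = volume.real (Wt K L (1 / 2)) := ⟨_, rfl⟩
  have hVn : 0 ≤ V := by rw [hV]; exact measureReal_nonneg
  have hV'n : 0 ≤ V' := by rw [hV']; exact measureReal_nonneg
  have hV2n : 0 ≤ V2 := by rw [hV2]; exact measureReal_nonneg
  rw [← ha, ← hb, ← hV', sub_sub_cancel] at i1
  rw [← hV, ← hV', ← hV2] at i2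
  -- the hypothesis
  have i3 : V2 ^ 2 ≤ s ^ 2 * (a * b) := by
    rw [hhalf] at h
    have h5 := ENNReal.toReal_mono (by
      exact ENNReal.mul_ne_top (ENNReal.pow_ne_top ENNReal.ofReal_ne_top)
        (ENNReal.mul_ne_top vKt vLt)) h
    rw [ENNReal.toReal_pow, ENNReal.toReal_mul, ENNReal.toReal_pow, ENNReal.toReal_mul,
      ENNReal.toReal_ofReal hs.le] at h5
    rw [hV2, ha, hb]
    exact h5
  have i4 : V * V' ≤ V2 ^ 2 := by
    have h5 := pow_le_pow_left₀ (by positivity) i2 2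
    rw [mul_pow, ← Real.rpow_natCast, ← Real.rpow_natCast (V' ^ (1 / 2 : ℝ)),
      ← Real.rpow_mul hVn, ← Real.rpow_mul hV'n] at h5
    norm_num at h5
    exact h5
  have hpos : 0 < a ^ θ * b ^ (1 - θ) := by positivity
  have i5 : V ≤ s ^ 2 * (a ^ (1 - θ) * b ^ θ) := by
    have h5 : V * (a ^ θ * b ^ (1 - θ)) ≤ s ^ 2 * (a ^ (1 - θ) * b ^ θ) * (a ^ θ * b ^ (1 - θ)) := by
      have e : s ^ 2 * (a ^ (1 - θ) * b ^ θ) * (a ^ θ * b ^ (1 - θ)) = s ^ 2 * (a * b) := by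
        have e1 : a ^ (1 - θ) * a ^ θ = a := by
          rw [← Real.rpow_add ha0, sub_add_cancel, Real.rpow_one]
        have e2 : b ^ θ * b ^ (1 - θ) = b := by
          rw [← Real.rpow_add hb0, add_sub_cancel, Real.rpow_one]
        calc s ^ 2 * (a ^ (1 - θ) * b ^ θ) * (a ^ θ * b ^ (1 - θ)) =
            s ^ 2 * ((a ^ (1 - θ) * a ^ θ) * (b ^ θ * b ^ (1 - θ))) := by ring
          _ = _ := by rw [e1, e2]
      rw [e]
      exact (mul_le_mul_of_nonneg_left i1 hVn).trans (i4.trans i3)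
    exact le_of_mul_le_mul_right h5 hpos
  -- the final computation
  have i6 : ((1 + l) / 2) ^ n * (a ^ (1 - θ) * b ^ θ) ≤ a := by
    have e1 : a ^ (1 - θ) * b ^ θ = a * (l ^ θ) ^ (n : ℕ) / ((l ^ θ) ^ (n : ℕ)) ^ 2 := by
      have e2 : a ^ θ = (l ^ θ) ^ n * b ^ θ := by
        rw [hab, Real.mul_rpow (by positivity) hb0.le]
        congr 1
        rw [← Real.rpow_natCast, ← Real.rpow_mul hl0.le, ← Real.rpow_natCast, ← Real.rpow_mul hl0.le,
          mul_comm]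
      have e3 : a ^ (1 - θ) * a ^ θ = a := by
        rw [← Real.rpow_add ha0, sub_add_cancel, Real.rpow_one]
      have hp : 0 < (l ^ θ) ^ n := by positivity
      rw [eq_div_iff (by positivity)]
      calc a ^ (1 - θ) * b ^ θ * ((l ^ θ) ^ n) ^ 2 =
          (a ^ (1 - θ) * ((l ^ θ) ^ n * b ^ θ)) * (l ^ θ) ^ n := by ring
        _ = _ := by rw [← e2, e3]
    have hp : 0 < (l ^ θ) ^ n := by positivity
    have e4 : a * (l ^ θ) ^ n / ((l ^ θ) ^ n) ^ 2 = a / (l ^ θ) ^ n := by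
      field_simp
    rw [e1, e4, ← mul_div_assoc, div_le_iff₀ hp, mul_comm]
    have h6 := ent hl0
    rw [← hθ] at h6
    exact mul_le_mul_of_nonneg_left (pow_le_pow_left₀ (by positivity) h6 n) ha0.le
  rw [hset, Measure.addHaar_smul, fr, abs_of_pos (by positivity)]
  have hVe : volume (Wt K L θ) = ENNReal.ofReal V := by
    rw [hV]
    exact (ENNReal.ofReal_toReal (cV θ).measure_lt_top.ne).symm
  rw [hVe, hKa, ← ENNReal.ofReal_mul (by positivity), ← ENNReal.ofReal_mul (by positivity)]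
  apply ENNReal.ofReal_le_ofReal
  calc ((1 + l) / 2) ^ n * V ≤ ((1 + l) / 2) ^ n * (s ^ 2 * (a ^ (1 - θ) * b ^ θ)) := by gcongr
    _ = s ^ 2 * (((1 + l) / 2) ^ n * (a ^ (1 - θ) * b ^ θ)) := by ring
    _ ≤ s ^ 2 * a := by gcongr

/-- **BMX** -/
theorem t_BMX (h : Pool.Agent.N483.KM.S_BM1) : Pool.Agent.N483.KM.S_BMX := by
  intro s hs
  obtain ⟨δ', hδ', H⟩ := h (s ^ 2) (by positivity)
  refine ⟨δ', hδ', fun κ' δ hκ' hδ => ?_⟩
  obtain ⟨κ, hκ, H2⟩ := H κ' δ hκ' hδ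
  refine ⟨κ, hκ, fun n K L hK hKc hKi hL hLc hLi hv hcc => ?_⟩
  rcases Nat.eq_zero_or_pos n with hn | hn
  · subst hn
    exact Pool.Agent.R754.KG.cc_zero hδ.le L hL hLi
  obtain ⟨l, hl, h1, h2⟩ := claim hn hK hKc hKi hL hLc hLi hs hv
  have hl0 : l ≠ 0 := hl.ne'
  have hi' : (interior (l • L)).Nonempty := by
    rw [interior_smul₀ hl0]
    exact hLi.smul_set
  have h3 := H2 n K (l • L) hK hKc hKi (hL.smul l) (hLc.smul l) hi' h1.symm h2 hcc
  have hl1 : l⁻¹ ≠ 0 := inv_ne_zero hl0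
  have h4 := Pool.Agent.Y506.PV.cc_equiv
    ((LinearEquiv.smulOfNeZero ℝ (E n) l⁻¹ hl1).toContinuousLinearEquiv) (l • L)
    (Pool.Agent.Y506.PV.adm_ind (l • L) (hL.smul l).measurableSet (hL.smul l).isBounded
      (Pool.Agent.Y506.PV.vol_pos hi')) h3
  have e : ((LinearEquiv.smulOfNeZero ℝ (E n) l⁻¹ hl1).toContinuousLinearEquiv) '' (l • L) = L := by
    have e1 : ((LinearEquiv.smulOfNeZero ℝ (E n) l⁻¹ hl1).toContinuousLinearEquiv) '' (l • L) =
        l⁻¹ • (l • L) := rfl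
    rw [e1, smul_smul, inv_mul_cancel₀ hl0, one_smul]
  rw [e] at h4
  exact h4

end Pool.Agent.N738.KM
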